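import Mathlib
import Pool.Agent.H801R3.Local

set_option autoImplicit false

namespace Pool.Agent.Results.MP_52ffe4_co.ChromaticFour

open Pool.Agent.H801R3

/-- The field `K = Q(sqrt 3, sqrt 11)` as a subfield of the real numbers. -/
noncomputable def K : IntermediateField ℚ ℝ := IntermediateField.adjoin ℚ {√3, √11}

/-- The unit distance graph on `K × K`. -/
def GK : SimpleGraph (K × K) where
  Adj p q := ((p.1 : ℝ) - (q.1 : ℝ)) ^ 2 + ((p.2 : ℝ) - (q.2 : ℝ)) ^ 2 = 1
  symm := ⟨fun p q h => by linear_combination h⟩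
  loopless := ⟨fun p h => by simp at h⟩

lemma sqrt3_mem : √3 ∈ K := IntermediateField.subset_adjoin ℚ _ (by simp)

lemma sqrt11_mem : √11 ∈ K := IntermediateField.subset_adjoin ℚ _ (by simp)

/-- `sqrt 3` as an element of `K`. -/
noncomputable def r3 : K := ⟨√3, sqrt3_mem⟩

/-- `sqrt 11` as an element of `K`. -/
noncomputable def r11 : K := ⟨√11, sqrt11_mem⟩

lemma r3_sq : r3 * r3 = 3 := by
  apply Subtype.ext
  change √3 * √3 = ((3 : K) : ℝ)
  rw [Real.mul_self_sqrt (by norm_num)]; rfl

lemma r11_sq : r11 * r11 = 11 := by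
  apply Subtype.ext
  change √11 * √11 = ((11 : K) : ℝ)
  rw [Real.mul_self_sqrt (by norm_num)]; rfl

instance algK : Algebra.IsAlgebraic ℚ K := by
  apply IntermediateField.isAlgebraic_adjoin
  intro x hx
  rcases hx with rfl | rfl
  · refine ⟨Polynomial.X ^ 2 - Polynomial.C 3, Polynomial.monic_X_pow_sub_C _ (by norm_num), ?_⟩
    simp
  · refine ⟨Polynomial.X ^ 2 - Polynomial.C 11, Polynomial.monic_X_pow_sub_C _ (by norm_num), ?_⟩
    simp

/-- The algebraic closure of `Q_2`. -/
abbrev Om : Type := AlgebraicClosure ℚ_[2]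

/-- An embedding of `K` in the algebraic closure of `Q_2`. -/
noncomputable def psi : K →ₐ[ℚ] Om := IsAlgClosed.lift

/-- The image of `sqrt 3`. -/
noncomputable def s3 : Om := psi r3

lemma s3_sq : s3 * s3 = 3 := by
  rw [s3, ← map_mul, r3_sq, map_ofNat]

/-- embedding of `Q_2` -/
noncomputable def em : ℚ_[2] →+* Om := algebraMap ℚ_[2] Om

lemma coord_unique (a b : ℚ_[2]) (h : em a + em b * s3 = 0) : a = 0 ∧ b = 0 := by
  by_cases hb : b = 0
  · subst hb
    simp at h
    exact ⟨h, rfl⟩
  · exfalso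
    apply three_not_square (a / b)
    have hb' : em b ≠ 0 := by simpa using hb
    have : s3 = - em a / em b := by
      field_simp
      linear_combination h
    have h3 := s3_sq
    rw [this] at h3
    apply em.injective
    rw [map_mul, map_div₀, map_ofNat, ← h3]
    ring

lemma coord_exists (x : K) : ∃ a b : ℚ_[2], psi x = em a + em b * s3 := by
  obtain ⟨x, hx⟩ := x
  induction hx using IntermediateField.adjoin_induction with
  | mem x hx =>
    rcases hx with rfl | rfl
    · refine ⟨0, 1, ?_⟩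
      simp only [map_zero, map_one, zero_add, one_mul]
      rfl
    · obtain ⟨t, ht⟩ := thirtythree_square
      have h11 : psi r11 * psi r11 = 11 := by rw [← map_mul, r11_sq, map_ofNat]
      have h33 : (psi r11 * s3 - em t) * (psi r11 * s3 + em t) = 0 := by
        have : em t * em t = 33 := by rw [← map_mul, ht, map_ofNat]
        linear_combination (s3 * s3) * h11 + 11 * s3_sq - this
      have h3 : (3 : Om) ≠ 0 := by norm_num
      rcases mul_eq_zero.mp h33 with h | h
      · refine ⟨0, t / 3, ?_⟩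
        change psi r11 = _
        rw [map_zero, map_div₀, map_ofNat]
        field_simp
        linear_combination s3 * h - psi r11 * s3_sq
      · refine ⟨0, - t / 3, ?_⟩
        change psi r11 = _
        rw [map_zero, map_div₀, map_neg, map_ofNat]
        field_simp
        linear_combination s3 * h - psi r11 * s3_sq
  | algebraMap q =>
    refine ⟨(q : ℚ_[2]), 0, ?_⟩
    have : (⟨algebraMap ℚ ℝ q, K.algebraMap_mem q⟩ : K) = algebraMap ℚ K q := rfl
    rw [this, AlgHom.commutes]
    simp
  | add x y hx hy ihx ihy =>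
    obtain ⟨a, b, h⟩ := ihx
    obtain ⟨c, d, h'⟩ := ihy
    refine ⟨a + c, b + d, ?_⟩
    have : (⟨x + y, K.add_mem hx hy⟩ : K) = ⟨x, hx⟩ + ⟨y, hy⟩ := rfl
    rw [this, map_add, h, h', map_add, map_add]; ring
  | inv x hx ih =>
    obtain ⟨a, b, h⟩ := ih
    have hh : (⟨x⁻¹, K.inv_mem hx⟩ : K) = (⟨x, hx⟩ : K)⁻¹ := rfl
    rw [hh, map_inv₀, h]
    by_cases h0 : em a + em b * s3 = 0
    · exact ⟨0, 0, by rw [h0]; simp⟩
    · have em3 : em 3 = 3 := map_ofNat em 3
      have hn : em a * em a - 3 * (em b * em b) ≠ 0 := by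
        intro hz
        have h1 : (em a + em b * s3) * (em a - em b * s3) = 0 := by
          linear_combination hz - (em b * em b) * s3_sq
        rcases mul_eq_zero.mp h1 with h2 | h2
        · exact h0 h2
        · have h3 := coord_unique a (-b) (by rw [map_neg]; linear_combination h2)
          apply h0
          rw [h3.1, neg_eq_zero.mp h3.2]; simp
      refine ⟨a / (a * a - 3 * (b * b)), - b / (a * a - 3 * (b * b)), ?_⟩
      rw [map_div₀, map_div₀, map_neg, map_sub, map_mul, map_mul, map_mul, em3]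
      apply inv_eq_of_mul_eq_one_right
      rw [div_mul_eq_mul_div, ← add_div, mul_div_assoc', div_eq_one_iff_eq hn]
      linear_combination (- (em b * em b)) * s3_sq
  | mul x y hx hy ihx ihy =>
    obtain ⟨a, b, h⟩ := ihx
    obtain ⟨c, d, h'⟩ := ihy
    refine ⟨a * c + 3 * (b * d), a * d + b * c, ?_⟩
    have : (⟨x * y, K.mul_mem hx hy⟩ : K) = ⟨x, hx⟩ * ⟨y, hy⟩ := rfl
    rw [this, map_mul, h, h']
    simp only [map_add, map_mul, map_ofNat]
    linear_combination (em b * em d) * s3_sq

/-- First coordinate. -/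
noncomputable def ca (x : K) : ℚ_[2] := (coord_exists x).choose
/-- Second coordinate. -/
noncomputable def cb (x : K) : ℚ_[2] := (coord_exists x).choose_spec.choose

lemma cab_spec (x : K) : psi x = em (ca x) + em (cb x) * s3 :=
  (coord_exists x).choose_spec.choose_spec

lemma cab_eq (x : K) (a b : ℚ_[2]) (h : psi x = em a + em b * s3) : ca x = a ∧ cb x = b := by
  have h1 := cab_spec x
  have h2 := coord_unique (ca x - a) (cb x - b) (by
    rw [map_sub, map_sub]; linear_combination h - h1)
  exact ⟨sub_eq_zero.mp h2.1, sub_eq_zero.mp h2.2⟩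

lemma cab_add (x y : K) : ca (x + y) = ca x + ca y ∧ cb (x + y) = cb x + cb y := by
  apply cab_eq
  rw [map_add, cab_spec x, cab_spec y, map_add, map_add]; ring

/-- The coordinates `p = x + y / sqrt 3`, `q = 2 y / sqrt 3`, split over `Q_2`. -/
noncomputable def T : K × K →+ (ℚ_[2] × ℚ_[2]) × (ℚ_[2] × ℚ_[2]) where
  toFun v := ((ca (v.1 + v.2 / r3), cb (v.1 + v.2 / r3)), (ca (2 * v.2 / r3), cb (2 * v.2 / r3)))
  map_zero' := by
    have h := cab_eq 0 0 0 (by simp)
    simp [h.1, h.2]
  map_add' v w := by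
    have e1 : (v + w).1 + (v + w).2 / r3 = (v.1 + v.2 / r3) + (w.1 + w.2 / r3) := by
      simp only [Prod.fst_add, Prod.snd_add]; ring
    have e2 : 2 * (v + w).2 / r3 = 2 * v.2 / r3 + 2 * w.2 / r3 := by
      simp only [Prod.snd_add]; ring
    rw [e1, e2]
    simp only [(cab_add _ _).1, (cab_add _ _).2, Prod.mk_add_mk]

/-- The image of four 2-adic integers. -/
noncomputable def I4 : (ℤ_[2] × ℤ_[2]) × (ℤ_[2] × ℤ_[2]) →+ (ℚ_[2] × ℚ_[2]) × (ℚ_[2] × ℚ_[2]) :=
  (io.toAddMonoidHom.prodMap io.toAddMonoidHom).prodMap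
    (io.toAddMonoidHom.prodMap io.toAddMonoidHom)

lemma I4_inj : Function.Injective I4 := by
  intro x y h
  obtain ⟨⟨a, b⟩, ⟨c, d⟩⟩ := x
  obtain ⟨⟨a', b'⟩, ⟨c', d'⟩⟩ := y
  change ((io a, io b), (io c, io d)) = ((io a', io b'), (io c', io d')) at h
  simp only [Prod.mk.injEq] at h
  obtain ⟨⟨h1, h2⟩, h3, h4⟩ := h
  have e1 := io_inj h1
  have e2 := io_inj h2
  have e3 := io_inj h3
  have e4 := io_inj h4
  rw [e1, e2, e3, e4]

/-- The reduction `(p, q)` modulo the prime `1 + sqrt 3`. -/
noncomputable def red : (ℤ_[2] × ℤ_[2]) × (ℤ_[2] × ℤ_[2]) →+ ZMod 2 × ZMod 2 where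
  toFun v := (PadicInt.toZMod (v.1.1 + v.1.2), PadicInt.toZMod (v.2.1 + v.2.2))
  map_zero' := by simp
  map_add' v w := by
    simp only [Prod.fst_add, Prod.snd_add, map_add, Prod.mk_add_mk]
    refine Prod.ext ?_ ?_ <;> simp only <;> ring

/-- Unit vectors are integral with nonzero reduction. -/
lemma unit_vector (v : K × K) (h : v.1 * v.1 + v.2 * v.2 = 1) :
    ∃ u, I4 u = T v ∧ red u ≠ 0 := by
  have h3 : r3 ≠ 0 := by
    intro h0
    have := r3_sq
    rw [h0] at this
    norm_num at this
  set p := v.1 + v.2 / r3 with hp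
  set q := 2 * v.2 / r3 with hq
  have hpq : p * p - p * q + q * q = 1 := by
    rw [hp, hq]
    field_simp
    have := r3_sq
    linear_combination (v.1 ^ 2 - 1) * this + 3 * h
  have hps := congrArg psi hpq
  simp only [map_add, map_sub, map_mul, map_one] at hps
  rw [cab_spec p, cab_spec q] at hps
  have hu := coord_unique
    (ca p * ca p + 3 * (cb p * cb p) - (ca p * ca q + 3 * (cb p * cb q))
      + (ca q * ca q + 3 * (cb q * cb q)) - 1)
    (2 * (ca p * cb p) - (ca p * cb q + cb p * ca q) + 2 * (ca q * cb q)) (by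
      simp only [map_add, map_sub, map_mul, map_one, map_ofNat]
      linear_combination hps - (em (cb p) * em (cb p) - em (cb p) * em (cb q)
        + em (cb q) * em (cb q)) * s3_sq)
  obtain ⟨A, B, C, D, hA, hB, hC, hD, hne⟩ := circle_local (ca p) (cb p) (ca q) (cb q)
    (sub_eq_zero.mp hu.1) hu.2
  refine ⟨((A, B), (C, D)), ?_, ?_⟩
  · change ((io A, io B), (io C, io D)) = _
    rw [hA, hB, hC, hD]; rfl
  · intro h0
    apply hne
    have h1 := congrArg Prod.fst h0
    have h2 := congrArg Prod.snd h0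
    exact ⟨h1, h2⟩

/-- The subgroup of integral vectors. -/
noncomputable def Lam : AddSubgroup (K × K) := (I4.range).comap T

/-- A colouring of `GK` with colours `ZMod 2 × ZMod 2`. -/
noncomputable def colour (v : K × K) : ZMod 2 × ZMod 2 :=
  let r : K × K := Quotient.out (QuotientAddGroup.mk v : (K × K) ⧸ Lam)
  red (Function.invFun I4 (T (v - r)))

lemma colour_ne (v w : K × K) (h : GK.Adj v w) : colour v ≠ colour w := by
  have h1 : (v - w).1 * (v - w).1 + (v - w).2 * (v - w).2 = 1 := by
    apply Subtype.ext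
    change ((v.1 : ℝ) - (w.1 : ℝ)) * ((v.1 : ℝ) - (w.1 : ℝ)) +
      ((v.2 : ℝ) - (w.2 : ℝ)) * ((v.2 : ℝ) - (w.2 : ℝ)) = 1
    have : ((v.1 : ℝ) - (w.1 : ℝ)) ^ 2 + ((v.2 : ℝ) - (w.2 : ℝ)) ^ 2 = 1 := h
    linear_combination this
  obtain ⟨u, hu, hne⟩ := unit_vector (v - w) h1
  have hmem : v - w ∈ Lam := ⟨u, hu⟩
  have hq : (QuotientAddGroup.mk v : (K × K) ⧸ Lam) = QuotientAddGroup.mk w := by
    rw [eq_comm, QuotientAddGroup.eq]
    have : -w + v = v - w := by abel
    rw [this]; exact hmem
  unfold colour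
  rw [hq]
  set r : K × K := Quotient.out (QuotientAddGroup.mk w : (K × K) ⧸ Lam) with hr
  have hrw : w - r ∈ Lam := by
    have : (QuotientAddGroup.mk r : (K × K) ⧸ Lam) = QuotientAddGroup.mk w := by
      rw [hr]; exact Quotient.out_eq _
    rw [QuotientAddGroup.eq] at this
    have h2 : -r + w = w - r := by abel
    rw [h2] at this; exact this
  have hrv : v - r ∈ Lam := by
    have : v - r = (v - w) + (w - r) := by abel
    rw [this]; exact Lam.add_mem hmem hrw
  obtain ⟨a, ha⟩ := hrv
  obtain ⟨b, hb⟩ := hrw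
  have hinv : ∀ x, Function.invFun I4 (I4 x) = x := Function.leftInverse_invFun I4_inj
  simp only
  rw [← ha, ← hb, hinv, hinv]
  intro hab
  apply hne
  have hu' : u = a - b := by
    apply I4_inj
    rw [map_sub, ha, hb, hu, ← map_sub]
    congr 1; abel
  rw [hu', map_sub, hab, sub_self]

lemma colorable_four : GK.Colorable 4 := by
  have c : GK.Coloring (ZMod 2 × ZMod 2) := SimpleGraph.Coloring.mk colour (fun {v w} h => colour_ne v w h)
  have := c.colorable
  simpa using this

lemma not_colorable_three : ¬ GK.Colorable 3 := by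
  rintro ⟨c⟩
  have h3 : (√3 : ℝ) ^ 2 = 3 := Real.sq_sqrt (by norm_num)
  have h11 : (√11 : ℝ) ^ 2 = 11 := Real.sq_sqrt (by norm_num)
  let A : K × K := (0, 0)
  let B : K × K := (r3 / 2, 1 / 2)
  let C : K × K := (r3 / 2, - 1 / 2)
  let D : K × K := (r3, 0)
  let B' : K × K := ((5 * r3 - r11) / 12, (r3 * r11 + 5) / 12)
  let C' : K × K := ((5 * r3 + r11) / 12, (r3 * r11 - 5) / 12)
  let D' : K × K := (5 * r3 / 6, r3 * r11 / 6)
  have adj : ∀ v w : K × K, (v.1 - w.1) * (v.1 - w.1) + (v.2 - w.2) * (v.2 - w.2) = 1 → GK.Adj v w := by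
    intro v w h
    have := congrArg (fun t : K => (t : ℝ)) h
    change ((v.1 : ℝ) - (w.1 : ℝ)) ^ 2 + ((v.2 : ℝ) - (w.2 : ℝ)) ^ 2 = 1
    have h' : ((v.1 : ℝ) - (w.1 : ℝ)) * ((v.1 : ℝ) - (w.1 : ℝ)) +
      ((v.2 : ℝ) - (w.2 : ℝ)) * ((v.2 : ℝ) - (w.2 : ℝ)) = 1 := this
    linear_combination h'
  have e3 := r3_sq
  have e11 := r11_sq
  have hAB := c.valid (adj A B (by simp only [A, B]; linear_combination (1/4) * e3))
  have hAC := c.valid (adj A C (by simp only [A, C]; linear_combination (1/4) * e3))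
  have hBC := c.valid (adj B C (by simp only [B, C]; ring))
  have hBD := c.valid (adj B D (by simp only [B, D]; linear_combination (1/4) * e3))
  have hCD := c.valid (adj C D (by simp only [C, D]; linear_combination (1/4) * e3))
  have hAB' := c.valid (adj A B' (by
    simp only [A, B']; linear_combination ((25 + r11 * r11) / 144) * e3 + (4 / 144) * e11))
  have hAC' := c.valid (adj A C' (by
    simp only [A, C']; linear_combination ((25 + r11 * r11) / 144) * e3 + (4 / 144) * e11))
  have hBC' := c.valid (adj B' C' (by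
    simp only [B', C']; linear_combination (4 / 144) * e11))
  have hBD' := c.valid (adj B' D' (by
    simp only [B', D']; linear_combination ((25 + r11 * r11) / 144) * e3 + (4 / 144) * e11))
  have hCD' := c.valid (adj C' D' (by
    simp only [C', D']; linear_combination ((25 + r11 * r11) / 144) * e3 + (4 / 144) * e11))
  have hDD' := c.valid (adj D D' (by
    simp only [D, D']; linear_combination ((1 + r11 * r11) / 36) * e3 + (3 / 36) * e11))
  generalize c A = a at *
  generalize c B = b at *
  generalize c C = cc at *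
  generalize c D = d at *
  generalize c B' = b' at *
  generalize c C' = c' at *
  generalize c D' = d' at *
  revert a b cc d b' c' d'
  decide

/-- The unit distance graph on `Q(sqrt 3, sqrt 11)^2` has chromatic number exactly four. -/
theorem result : GK.chromaticNumber = 4 := by
  have h := (SimpleGraph.chromaticNumber_eq_iff_colorable_not_colorable (G := GK) (n := 3)).mpr
    ⟨colorable_four, not_colorable_three⟩
  rw [h]; norm_num

end Pool.Agent.Results.MP_52ffe4_co.ChromaticFour
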